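import Pool.Agent.L0h19.QE.Stm

set_option autoImplicit false

/-!
# The module CNB of project QE
-/

namespace Pool.Agent.L0h55.QE

open Finset
open Pool.Agent.L0h19.QE

theorem card_dvd (v e : ℕ) : ∑ x ∈ Icc 1 v, (if e ∣ x then 1 else 0) = v / e := by
  rw [← Finset.card_filter]
  have h : Icc 1 v = Ioc 0 v := by
    ext x; simp [Nat.succ_le_iff]
  rw [h]
  exact Nat.Ioc_filter_dvd_card_eq_div v e

theorem gcd_sum (v : ℕ) (hv : 1 ≤ v) :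
    ∑ v₂ ∈ Icc 1 v, ∑ v₁ ∈ Icc 1 v, Nat.gcd v₁ (Nat.gcd v₂ v) ≤ v * ∑ e ∈ v.divisors, e := by
  calc ∑ v₂ ∈ Icc 1 v, ∑ v₁ ∈ Icc 1 v, Nat.gcd v₁ (Nat.gcd v₂ v)
      ≤ ∑ v₂ ∈ Icc 1 v, ∑ v₁ ∈ Icc 1 v, ∑ e ∈ v.divisors,
          (if e ∣ v₂ then 1 else 0) * (if e ∣ v₁ then 1 else 0) * e := by
        refine Finset.sum_le_sum fun v₂ _ => Finset.sum_le_sum fun v₁ _ => ?_
        have hg : Nat.gcd v₁ (Nat.gcd v₂ v) ∈ v.divisors := by
          rw [Nat.mem_divisors]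
          exact ⟨(Nat.gcd_dvd_right _ _).trans (Nat.gcd_dvd_right _ _), by omega⟩
        have h1 : Nat.gcd v₁ (Nat.gcd v₂ v) ∣ v₂ := (Nat.gcd_dvd_right _ _).trans (Nat.gcd_dvd_left _ _)
        have h2 : Nat.gcd v₁ (Nat.gcd v₂ v) ∣ v₁ := Nat.gcd_dvd_left _ _
        have h3 := Finset.single_le_sum
          (f := fun e : ℕ => (if e ∣ v₂ then 1 else 0) * (if e ∣ v₁ then 1 else 0) * e)
          (fun i _ => Nat.zero_le _) hg
        simpa [h1, h2] using h3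
    _ = ∑ e ∈ v.divisors, (v / e) * (v / e) * e := by
        have h4 : ∀ v₂ : ℕ, ∑ v₁ ∈ Icc 1 v, ∑ e ∈ v.divisors,
            (if e ∣ v₂ then 1 else 0) * (if e ∣ v₁ then 1 else 0) * e =
            ∑ e ∈ v.divisors, (if e ∣ v₂ then 1 else 0) * (v / e) * e := by
          intro v₂
          rw [Finset.sum_comm]
          refine Finset.sum_congr rfl fun e _ => ?_
          rw [← Finset.sum_mul, ← Finset.mul_sum, card_dvd]
        simp_rw [h4]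
        rw [Finset.sum_comm]
        refine Finset.sum_congr rfl fun e _ => ?_
        rw [← Finset.sum_mul, ← Finset.sum_mul, card_dvd]
    _ = ∑ e ∈ v.divisors, v * (v / e) := by
        refine Finset.sum_congr rfl fun e he => ?_
        have h5 : v / e * e = v := Nat.div_mul_cancel (Nat.dvd_of_mem_divisors he)
        calc v / e * (v / e) * e = (v / e * e) * (v / e) := by ring
          _ = v * (v / e) := by rw [h5]
    _ = v * ∑ e ∈ v.divisors, e := by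
        rw [← Finset.mul_sum, Nat.sum_div_divisors v (fun e => e)]

theorem sigma_sum (T : ℕ) : ∑ v ∈ Icc 1 T, ∑ e ∈ v.divisors, e ≤ T ^ 2 := by
  calc ∑ v ∈ Icc 1 T, ∑ e ∈ v.divisors, e
      = ∑ v ∈ Icc 1 T, ∑ e ∈ Icc 1 T, (if e ∣ v then 1 else 0) * e := by
        refine Finset.sum_congr rfl fun v hv => ?_
        rw [Finset.mem_Icc] at hv
        have h : v.divisors = (Icc 1 T).filter (fun e => e ∣ v) := by
          ext e
          simp only [Nat.mem_divisors, Finset.mem_filter, Finset.mem_Icc]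
          constructor
          · rintro ⟨h1, h2⟩
            exact ⟨⟨Nat.pos_of_dvd_of_pos h1 (by omega), (Nat.le_of_dvd (by omega) h1).trans hv.2⟩, h1⟩
          · rintro ⟨_, h1⟩
            exact ⟨h1, by omega⟩
        rw [h, Finset.sum_filter]
        refine Finset.sum_congr rfl fun e _ => ?_
        split_ifs <;> simp
    _ = ∑ e ∈ Icc 1 T, (T / e) * e := by
        rw [Finset.sum_comm]
        refine Finset.sum_congr rfl fun e _ => ?_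
        rw [← Finset.sum_mul, card_dvd]
    _ ≤ ∑ e ∈ Icc 1 T, T := Finset.sum_le_sum fun e _ => Nat.div_mul_le_self T e
    _ = T ^ 2 := by simp [sq]

theorem t_CNB : S_CNB := by
  intro T hT
  have hT' : (1 : ℝ) ≤ T := by exact_mod_cast hT
  have key : ∀ v₃ ∈ Icc 1 T, ∑ v₂ ∈ Icc 1 v₃, ∑ v₁ ∈ Icc 1 v₃,
      ((2 * T * (Nat.gcd v₁ (Nat.gcd v₂ v₃)) / (Nat.gcd v₂ v₃) + 1) * (2 * T * (Nat.gcd v₂ v₃) / v₃ + 1) : ℝ) ≤
      4 * (T : ℝ) ^ 2 * ((∑ e ∈ v₃.divisors, e : ℕ) : ℝ) + 5 * (T : ℝ) ^ 3 := by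
    intro v hv
    rw [Finset.mem_Icc] at hv
    have hv0 : (0 : ℝ) < v := by exact_mod_cast hv.1
    have hvT : (v : ℝ) ≤ T := by exact_mod_cast hv.2
    have h1 : ∀ v₂ ∈ Icc 1 v, ∀ v₁ ∈ Icc 1 v,
        ((2 * T * (Nat.gcd v₁ (Nat.gcd v₂ v)) / (Nat.gcd v₂ v) + 1) * (2 * T * (Nat.gcd v₂ v) / v + 1) : ℝ) ≤
        4 * (T : ℝ) ^ 2 / v * (Nat.gcd v₁ (Nat.gcd v₂ v) : ℕ) + 5 * T := by
      intro v₂ h₂ v₁ h₁
      rw [Finset.mem_Icc] at h₂ h₁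
      have hg0 : 0 < Nat.gcd v₂ v := Nat.gcd_pos_of_pos_left _ h₂.1
      have hgv : Nat.gcd v₂ v ≤ v := Nat.le_of_dvd hv.1 (Nat.gcd_dvd_right _ _)
      have hdg : Nat.gcd v₁ (Nat.gcd v₂ v) ≤ Nat.gcd v₂ v := Nat.le_of_dvd hg0 (Nat.gcd_dvd_right _ _)
      generalize Nat.gcd v₁ (Nat.gcd v₂ v) = d at *
      generalize Nat.gcd v₂ v = g at *
      have hg0' : (0 : ℝ) < g := by exact_mod_cast hg0
      have hgv' : (g : ℝ) ≤ v := by exact_mod_cast hgv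
      have hdg' : (d : ℝ) ≤ g := by exact_mod_cast hdg
      have e1 : (d : ℝ) / g ≤ 1 := (div_le_one hg0').2 hdg'
      have e2 : (g : ℝ) / v ≤ 1 := (div_le_one hv0).2 hgv'
      have e3 : ((2 * T * d / g + 1) * (2 * T * g / v + 1) : ℝ) =
          4 * (T : ℝ) ^ 2 / v * d + 2 * T * (d / g) + 2 * T * (g / v) + 1 := by
        field_simp
        ring
      rw [e3]
      have e4 : 2 * (T : ℝ) * (d / g) ≤ 2 * T * 1 := by gcongr
      have e5 : 2 * (T : ℝ) * (g / v) ≤ 2 * T * 1 := by gcongr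
      linarith
    calc _ ≤ ∑ v₂ ∈ Icc 1 v, ∑ v₁ ∈ Icc 1 v,
            (4 * (T : ℝ) ^ 2 / v * (Nat.gcd v₁ (Nat.gcd v₂ v) : ℕ) + 5 * T) :=
          Finset.sum_le_sum fun v₂ h₂ => Finset.sum_le_sum fun v₁ h₁ => h1 v₂ h₂ v₁ h₁
      _ = 4 * (T : ℝ) ^ 2 / v * ((∑ v₂ ∈ Icc 1 v, ∑ v₁ ∈ Icc 1 v, Nat.gcd v₁ (Nat.gcd v₂ v) : ℕ) : ℝ) +
            v * v * (5 * T) := by
          simp only [Finset.sum_add_distrib, ← Finset.mul_sum, Finset.sum_const, Nat.card_Icc,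
            Nat.add_sub_cancel, nsmul_eq_mul, Nat.cast_sum]
          ring
      _ ≤ 4 * (T : ℝ) ^ 2 / v * ((v * ∑ e ∈ v.divisors, e : ℕ) : ℝ) + T * T * (5 * T) := by
          have h6 := gcd_sum v hv.1
          have h7 : ((∑ v₂ ∈ Icc 1 v, ∑ v₁ ∈ Icc 1 v, Nat.gcd v₁ (Nat.gcd v₂ v) : ℕ) : ℝ) ≤
              ((v * ∑ e ∈ v.divisors, e : ℕ) : ℝ) := by exact_mod_cast h6
          gcongr
      _ = _ := by
          push_cast
          field_simp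
  calc _ ≤ ∑ v₃ ∈ Icc 1 T, (4 * (T : ℝ) ^ 2 * ((∑ e ∈ v₃.divisors, e : ℕ) : ℝ) + 5 * (T : ℝ) ^ 3) :=
        Finset.sum_le_sum key
    _ = 4 * (T : ℝ) ^ 2 * ((∑ v ∈ Icc 1 T, ∑ e ∈ v.divisors, e : ℕ) : ℝ) + T * (5 * (T : ℝ) ^ 3) := by
        simp only [Finset.sum_add_distrib, ← Finset.mul_sum, Finset.sum_const, Nat.card_Icc,
          Nat.add_sub_cancel, nsmul_eq_mul, Nat.cast_sum]
        ring
    _ ≤ 4 * (T : ℝ) ^ 2 * ((T ^ 2 : ℕ) : ℝ) + T * (5 * (T : ℝ) ^ 3) := by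
        have h8 : ((∑ v ∈ Icc 1 T, ∑ e ∈ v.divisors, e : ℕ) : ℝ) ≤ ((T ^ 2 : ℕ) : ℝ) := by
          exact_mod_cast sigma_sum T
        gcongr
    _ = 9 * (T : ℝ) ^ 4 := by
        push_cast
        ring

end Pool.Agent.L0h55.QE
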